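import Pool.Agent.J4.H78.EX.Sum
import Pool.Agent.J4.H78.PM.TGen

set_option autoImplicit false

/-! The family: `l p ^ n + f n` at integers `n` with restricted digits in base `q`. -/

namespace Pool.Agent.J4.H78.EX

open Finset Real MeasureTheory Filter Topology
open Pool.Agent.Y933.KD (hat unif integral_unif Leb)
open Pool.Agent.J4.H78.RD (SD SD_card_pos)
open Pool.Agent.H807R2.Dav (ee ee_eq norm_ee)

lemma e_eq' (x : ℝ) : Pool.Agent.Y933.KD.e x = ee x := by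
  unfold Pool.Agent.Y933.KD.e
  rw [ee_eq]

/-- the family -/
def FE (p q d : ℕ) (A δ : ℝ) (M : ℕ) : Set (Finset ℕ × (ℕ → ℕ) × ℕ × ℕ) :=
  {x | ∃ (K : ℕ) (D : ℕ → Finset ℕ) (l : ℤ) (f : Polynomial ℝ), M = q ^ K ∧
    (∀ i < K, D i ⊆ range q ∧ 2 ≤ (D i).card) ∧ x.1 = SD q D K ∧ ¬ (q : ℤ) ∣ l ∧ f.natDegree ≤ d ∧
    (∀ n ∈ SD q D K, (x.2.1 n : ℝ) = l * (p : ℝ) ^ n + f.eval (n : ℝ)) ∧
    δ * K ≤ x.2.2.1 ∧ (x.2.2.1 : ℝ) + x.2.2.2 ≤ A * K}

theorem FE_ne (p q d : ℕ) (hq : 2 ≤ q) (A δ : ℝ) : ∀ M, ∀ x ∈ FE p q d A δ M, x.1.Nonempty := by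
  rintro M x ⟨K, D, l, f, hM, hD, hx1, _⟩
  rw [hx1, ← card_pos]
  have := SD_card_pos q hq D K hD
  exact_mod_cast this

/-- the characteristic functions -/
theorem FE_hat {p q : ℕ} (d : ℕ) (hp : 2 ≤ p) (hq : q.Prime) (hpq : ¬ q ∣ p) (A δ : ℝ) (hδ : 0 < δ) (k : ℕ) :
    ∃ κ : ℝ, 0 < κ ∧ ∃ M0 : ℕ, ∀ M : ℕ, M0 ≤ M → ∀ x ∈ FE p q d A δ M,
      ∀ (n : Fin k → ℕ) (h : Fin k → ℤ), (∀ i, n i ≤ x.2.2.2) →
      (∀ i, |(h i : ℝ)| ≤ exp (κ * log M)) → ∑ i, h i * (q : ℤ) ^ n i ≠ 0 →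
      ‖hat (unif x.1 (fun m => ((x.2.1 m : ℕ) : ℝ) / (q : ℝ) ^ (x.2.2.1 + x.2.2.2)))
        (∑ i, h i * (q : ℤ) ^ n i)‖ ≤ exp (-(κ * log M)) := by
  have hq2 := hq.two_le
  have hqR : (2 : ℝ) ≤ q := by exact_mod_cast hq2
  have hq0 : (0 : ℝ) < q := by linarith
  have hq1 : (1 : ℝ) < q := by linarith
  have hlq : 0 < log (q : ℝ) := Real.log_pos hq1
  obtain ⟨s₀, hs₀⟩ := Pool.Agent.W301.TD.AA.exists_tower hq hp hpq
  have hg : 1 ≤ (q ^ 2).totient := Nat.totient_pos.2 (pow_pos hq.pos 2)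
  obtain ⟨δ1, hδ1⟩ : ∃ δ1 : ℝ, δ1 = min (δ / 2) 1 := ⟨_, rfl⟩
  have hδ10 : 0 < δ1 := by rw [hδ1]; exact lt_min (by positivity) one_pos
  have hδ11 : δ1 ≤ 1 := by rw [hδ1]; exact min_le_right _ _
  have hδ12 : δ1 ≤ δ / 2 := by rw [hδ1]; exact min_le_left _ _
  obtain ⟨η, hη, K₀, hsum⟩ := expsum_S hq hpq hg hs₀ d δ1 |A| hδ10 hδ11 (abs_nonneg A)
  obtain ⟨κ, hκ⟩ : ∃ κ : ℝ, κ = min η (δ / 4) := ⟨_, rfl⟩
  have hκ0 : 0 < κ := by rw [hκ]; exact lt_min hη (by positivity)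
  have hκ1 : κ ≤ η := by rw [hκ]; exact min_le_left _ _
  have hκ2 : κ ≤ δ / 4 := by rw [hκ]; exact min_le_right _ _
  obtain ⟨K₁, hK₁⟩ := exists_nat_ge (log k / (δ / 4 * log q))
  refine ⟨κ, hκ0, q ^ (K₀ + K₁ + 1), fun M hM x hx n h hn hh hne => ?_⟩
  obtain ⟨K, D, l, f, hMK, hD, hx1, hl, hf, hY, hs, hJ⟩ := hx
  have hKK : K₀ + K₁ + 1 ≤ K := by
    rw [hMK] at hM
    exact (Nat.pow_le_pow_iff_right (by omega)).1 hM
  obtain ⟨T, Y, s, J⟩ := x
  simp only at hx1 hY hs hJ hn ⊢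
  subst hx1
  have hKR : (1 : ℝ) ≤ K := by exact_mod_cast (by omega : 1 ≤ K)
  have hK0 : (0 : ℝ) ≤ K := by linarith
  have hlM : log (M : ℝ) = K * log q := by
    rw [hMK, Nat.cast_pow, Real.log_pow]
  have hqpow : ∀ (j : ℕ) (x : ℝ), ((q : ℝ) ^ j) ^ x = Real.exp (x * j * Real.log q) := by
    intro j x
    rw [← Real.rpow_natCast, ← Real.rpow_mul hq0.le, Real.rpow_def_of_pos hq0]
    congr 1
    ring
  obtain ⟨H, hH⟩ : ∃ H : ℤ, H = ∑ i, h i * (q : ℤ) ^ n i := ⟨_, rfl⟩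
  rw [← hH] at hne ⊢
  obtain ⟨v, B, hB, hv⟩ := Pool.Agent.N639.FH.exists_val hq hne
  have hk : 0 < k := by
    rcases Nat.eq_zero_or_pos k with h0 | h0
    · exfalso
      subst h0
      apply hne
      rw [hH]
      simp
    · exact h0
  have hkR : (0 : ℝ) < k := by exact_mod_cast hk
  -- the size
  have h1 : |(H : ℝ)| ≤ k * (exp (κ * log M) * (q : ℝ) ^ J) := by
    rw [hH]
    push_cast
    refine (abs_sum_le_sum_abs _ _).trans ?_
    refine (sum_le_card_nsmul _ _ (exp (κ * log M) * (q : ℝ) ^ J) fun i _ => ?_).trans ?_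
    · rw [abs_mul, abs_of_nonneg (by positivity : (0 : ℝ) ≤ (q : ℝ) ^ n i)]
      exact mul_le_mul (hh i) (pow_le_pow_right₀ hq1.le (hn i)) (by positivity) (exp_pos _).le
    · rw [card_univ, Fintype.card_fin, nsmul_eq_mul]
  have h2 : (q : ℝ) ^ v ≤ |(H : ℝ)| := by
    rw [hv]
    push_cast
    rw [abs_mul, abs_of_nonneg (by positivity : (0 : ℝ) ≤ (q : ℝ) ^ v)]
    refine le_mul_of_one_le_right (by positivity) ?_
    have : 1 ≤ |B| := Int.one_le_abs (fun h => by rw [h] at hB; exact hB (dvd_zero _))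
    exact_mod_cast this
  have h3 : (v : ℝ) * log q ≤ log k + κ * log M + J * log q := by
    have h4 := Real.log_le_log (by positivity) (h2.trans h1)
    rw [Real.log_pow, Real.log_mul hkR.ne' (by positivity), Real.log_mul (by positivity)
      (by positivity), Real.log_exp, Real.log_pow] at h4
    linarith
  have h4 : (v : ℝ) ≤ J + δ / 2 * K := by
    have h5 : (v : ℝ) * log q ≤ (J + δ / 2 * K) * log q := by
      have e1 : κ * log M ≤ δ / 4 * K * log q := by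
        rw [hlM]
        have := mul_le_mul_of_nonneg_right hκ2 (by positivity : 0 ≤ K * log q)
        linarith
      have e2 : log k ≤ δ / 4 * K * log q := by
        have h6 : log k / (δ / 4 * log q) ≤ K := hK₁.trans (by exact_mod_cast (by omega : K₁ ≤ K))
        rw [div_le_iff₀ (by positivity)] at h6
        linarith
      linarith
    exact le_of_mul_le_mul_right h5 hlq
  have hvs : v ≤ s + J := by
    have h5 : (v : ℝ) ≤ s + J := by
      have : 0 ≤ δ * K := by positivity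
      linarith
    exact_mod_cast h5
  obtain ⟨ι, hι⟩ : ∃ ι : ℕ, s + J = ι + v := ⟨s + J - v, by omega⟩
  have hιR : (ι : ℝ) = s + J - v := by
    have : ((s + J : ℕ) : ℝ) = ((ι + v : ℕ) : ℝ) := by rw [hι]
    push_cast at this
    linarith
  have hBl : ¬ (q : ℤ) ∣ B * l := by
    intro hd
    rcases (Nat.prime_iff_prime_int.1 hq).dvd_or_dvd hd with hd | hd
    · exact hB hd
    · exact hl hd
  obtain ⟨c, hc⟩ : ∃ c : ℝ, c = (H : ℝ) / (q : ℝ) ^ (s + J) := ⟨_, rfl⟩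
  have key := hsum K (by omega) D hD ι (by
      rw [hιR]
      have : δ1 * K ≤ δ / 2 * K := mul_le_mul_of_nonneg_right hδ12 hK0
      linarith) (by
      rw [hιR]
      have h5 : A * K ≤ |A| * K := mul_le_mul_of_nonneg_right (le_abs_self A) hK0
      have : (0 : ℝ) ≤ v := Nat.cast_nonneg v
      linarith) (B * l) hBl (Polynomial.C c * f) ((Polynomial.natDegree_C_mul_le _ _).trans hf)
  have e1 : ∀ m ∈ SD q D K, Pool.Agent.Y933.KD.e (((H : ℤ) : ℝ) * (((Y m : ℕ) : ℝ) / (q : ℝ) ^ (s + J))) =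
      ee (((B * l : ℤ) : ℝ) * (p : ℝ) ^ m / (q : ℝ) ^ ι + (Polynomial.C c * f).eval (m : ℝ)) := by
    intro m hm
    rw [e_eq', hY m hm, Polynomial.eval_mul, Polynomial.eval_C, hc]
    congr 1
    have h5 : (q : ℝ) ^ (s + J) = (q : ℝ) ^ ι * (q : ℝ) ^ v := by
      rw [← pow_add, hι]
    have h6 : (H : ℝ) = (q : ℝ) ^ v * B := by
      rw [hv]
      push_cast
      ring
    rw [h5, h6]
    push_cast
    field_simp
  have hcard := SD_card_pos q hq2 D K hD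
  unfold hat
  rw [integral_unif, sum_congr rfl e1, norm_mul, norm_div, norm_one, Complex.norm_natCast, one_div,
    inv_mul_le_iff₀ hcard]
  refine key.trans (mul_le_mul_of_nonneg_left ?_ hcard.le)
  rw [hqpow, hlM]
  apply Real.exp_le_exp.2
  have : κ * (K * log q) ≤ η * (K * log q) := mul_le_mul_of_nonneg_right hκ1 (by positivity)
  linarith

end Pool.Agent.J4.H78.EX
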