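import Pool.Agent.J4.H78.EX.Split
import Pool.Agent.W301.TD.ExpSum

set_option autoImplicit false

/-! Powers at exponents in an arithmetic progression of step `q ^ h` as polynomial phases. -/

namespace Pool.Agent.J4.H78.EX
open Finset Polynomial
open Pool.Agent.H807R2.Dav
open Pool.Agent.J4.H93.PD (PF)
open Pool.Agent.J4.H78.RD (SD SD_card_pos)

/-- truncated binomial expansion -/
lemma binom_trunc (z y K : ℕ) : ∃ R : ℕ, (1 + z) ^ y = ∑ j ∈ range (K + 1), z ^ j * y.choose j + z ^ (K + 1) * R := by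
  refine ⟨∑ i ∈ range y, z ^ i * y.choose (K + 1 + i), ?_⟩
  have h1 : (1 + z) ^ y = ∑ j ∈ range (y + 1), z ^ j * y.choose j := by
    rw [add_comm, add_pow]
    simp
  have h2 : ∑ j ∈ range (y + 1), z ^ j * y.choose j = ∑ j ∈ range (K + 1 + y), z ^ j * y.choose j := by
    apply sum_subset
    · intro j hj
      rw [mem_range] at hj ⊢
      omega
    · intro j _ hj
      rw [mem_range, not_lt] at hj
      rw [Nat.choose_eq_zero_of_lt (by omega), mul_zero]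
  rw [h1, h2, sum_range_add]
  congr 1
  rw [mul_sum]
  apply sum_congr rfl
  intro i _
  rw [pow_add]
  ring

/-- the phase as a polynomial -/
lemma phase_poly {q : ℕ} (hq2 : 2 ≤ q) {g : ℕ} (hg : 1 ≤ g) (a w ι K : ℕ) (hK : ι ≤ a * (K + 1)) (A' : ℤ)
    (r₀ : ℕ) :
    ∃ P : ℝ[X], P.natDegree ≤ K ∧
      P.coeff K = (A' : ℝ) * (w : ℝ) ^ K * (q : ℝ) ^ (a * K) / (q : ℝ) ^ ι / (K.factorial : ℝ) * (1 / (g : ℝ)) ^ K ∧
      ∀ x : ℕ, x % g = r₀ →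
        ee (P.eval (x : ℝ)) = ee ((A' : ℝ) * (1 + (q : ℝ) ^ a * w) ^ (x / g) / (q : ℝ) ^ ι) := by
  have hq0 : (0 : ℝ) < q := by exact_mod_cast (by omega : 0 < q)
  have hg0 : (g : ℝ) ≠ 0 := by positivity
  obtain ⟨L, hL⟩ : ∃ L : ℝ[X], L = C (1 / (g : ℝ)) * X + C (-(r₀ : ℝ) / g) := ⟨_, rfl⟩
  obtain ⟨c, hc⟩ : ∃ c : ℕ → ℝ, c = fun j => (A' : ℝ) * (w : ℝ) ^ j * (q : ℝ) ^ (a * j) / (q : ℝ) ^ ι / (j.factorial : ℝ) := ⟨_, rfl⟩
  have hcomp : ∀ j, ((descPochhammer ℝ j).comp L).natDegree ≤ j ∧ ((descPochhammer ℝ j).comp L).coeff j = (1 / (g : ℝ)) ^ j := by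
    intro j
    rw [hL]
    exact binom_comp j (by positivity) _
  refine ⟨∑ j ∈ range (K + 1), C (c j) * (descPochhammer ℝ j).comp L, ?_, ?_, ?_⟩
  · apply natDegree_sum_le_of_forall_le
    intro j hj
    rw [mem_range] at hj
    refine (natDegree_C_mul_le _ _).trans ((hcomp j).1.trans (by omega))
  · rw [finsetSum_coeff, sum_range_succ, sum_eq_zero, zero_add, coeff_C_mul, (hcomp K).2, hc]
    intro j hj
    rw [mem_range] at hj
    rw [coeff_C_mul, coeff_eq_zero_of_natDegree_lt (lt_of_le_of_lt (hcomp j).1 hj), mul_zero]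
  · intro x hx
    obtain ⟨y, hy⟩ : ∃ y, y = x / g := ⟨_, rfl⟩
    have hxy : (x : ℝ) = r₀ + g * y := by
      have h1 := Nat.mod_add_div x g
      rw [hx, ← hy] at h1
      exact_mod_cast h1.symm
    have hLx : L.eval (x : ℝ) = y := by
      rw [hL]
      simp only [eval_add, eval_mul, eval_C, eval_X]
      rw [hxy]
      field_simp
      ring
    have heval : (∑ j ∈ range (K + 1), C (c j) * (descPochhammer ℝ j).comp L).eval (x : ℝ) =
        ∑ j ∈ range (K + 1), (A' : ℝ) * (((q : ℝ) ^ a * w) ^ j * (y.choose j)) / (q : ℝ) ^ ι := by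
      rw [eval_finsetSum]
      apply sum_congr rfl
      intro j _
      rw [eval_mul, eval_C, eval_comp, hLx, descPochhammer_eval_eq_descFactorial, Nat.descFactorial_eq_factorial_mul_choose, hc]
      push_cast
      have : ((j.factorial : ℕ) : ℝ) ≠ 0 := by exact_mod_cast Nat.factorial_ne_zero j
      rw [mul_pow, ← pow_mul]
      field_simp
    rw [heval, ← hy]
    obtain ⟨R, hR⟩ := binom_trunc (q ^ a * w) y K
    obtain ⟨e, he⟩ : ∃ e, a * (K + 1) = ι + e := ⟨a * (K + 1) - ι, by omega⟩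
    have hR' : (1 + (q : ℝ) ^ a * w) ^ y = ∑ j ∈ range (K + 1), ((q : ℝ) ^ a * w) ^ j * (y.choose j) +
        ((q : ℝ) ^ a * w) ^ (K + 1) * R := by exact_mod_cast hR
    have h1 : (A' : ℝ) * (1 + (q : ℝ) ^ a * w) ^ y / (q : ℝ) ^ ι =
        ∑ j ∈ range (K + 1), (A' : ℝ) * (((q : ℝ) ^ a * w) ^ j * (y.choose j)) / (q : ℝ) ^ ι +
        ((A' * (q ^ e * w ^ (K + 1) * R : ℕ) : ℤ) : ℝ) := by
      rw [hR', mul_add, add_div, ← sum_div, ← mul_sum]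
      congr 1
      push_cast
      rw [mul_pow, ← pow_mul, he, pow_add]
      field_simp
    rw [h1, ee_add_int]

/-- the sum over the exponents `n₀ + q ^ h x` -/
theorem inner_sum {q : ℕ} (hq2 : 2 ≤ q) {p g : ℕ} (hp : ¬ q ∣ p) (hqp : q.Prime) (hg : 1 ≤ g) (a w ι K h d₀ : ℕ)
    (hK : ι ≤ a * (K + 1)) (hK1 : 1 < K) (hd : d₀ < K) (hw : p ^ (g * q ^ h) = 1 + q ^ a * w)
    (T : Finset ℕ) (B : ℝ)
    (hW : ∀ F : ℝ[X], F.natDegree ≤ K → (∃ A'' : ℤ, ¬ (q : ℤ) ∣ A'' ∧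
      F.coeff K = (A'' : ℝ) * (w : ℝ) ^ K * (q : ℝ) ^ (a * K) / (q : ℝ) ^ ι / (K.factorial : ℝ) * (1 / (g : ℝ)) ^ K) →
      ‖∑ x ∈ T, ee (F.eval (x : ℝ))‖ ≤ B)
    (A : ℤ) (hA : ¬ (q : ℤ) ∣ A) (G : ℝ[X]) (hG : G.natDegree ≤ d₀) (n₀ : ℕ) :
    ‖∑ x ∈ T, ee ((A : ℝ) * (p : ℝ) ^ (n₀ + q ^ h * x) / (q : ℝ) ^ ι + G.eval ((n₀ + q ^ h * x : ℕ) : ℝ))‖ ≤ g * B := by
  classical
  have hg0 : (g : ℝ) ≠ 0 := by positivity
  have hgc : (g : ℂ) ≠ 0 := by exact_mod_cast (by omega : g ≠ 0)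
  have hqI : Prime (q : ℤ) := Nat.prime_iff_prime_int.1 hqp
  have hpI : ¬ (q : ℤ) ∣ (p : ℤ) := by
    intro hc
    exact hp (by exact_mod_cast hc)
  -- the polynomials
  have hA' : ∀ r₀ : ℕ, ¬ (q : ℤ) ∣ A * (p : ℤ) ^ (n₀ + q ^ h * r₀) := by
    intro r₀ hc
    rcases hqI.dvd_or_dvd hc with h1 | h1
    · exact hA h1
    · exact hpI (hqI.dvd_of_dvd_pow h1)
  have hP := fun r₀ : ℕ => phase_poly hq2 hg a w ι K hK (A * (p : ℤ) ^ (n₀ + q ^ h * r₀)) r₀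
  choose P hP1 hP2 hP3 using hP
  obtain ⟨G', hG'⟩ : ∃ G' : ℝ[X], G' = G.comp (C ((q : ℝ) ^ h) * X + C (n₀ : ℝ)) := ⟨_, rfl⟩
  have hG'1 : G'.natDegree ≤ d₀ := by
    rw [hG']
    refine natDegree_comp_le.trans ?_
    have h1 : (C ((q : ℝ) ^ h) * X + C (n₀ : ℝ)).natDegree ≤ 1 := natDegree_linear_le
    calc G.natDegree * (C ((q : ℝ) ^ h) * X + C (n₀ : ℝ)).natDegree ≤ G.natDegree * 1 := Nat.mul_le_mul_left _ h1
      _ ≤ d₀ := by omega
  have hG'2 : ∀ x : ℕ, G.eval ((n₀ + q ^ h * x : ℕ) : ℝ) = G'.eval (x : ℝ) := by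
    intro x
    rw [hG', eval_comp]
    congr 1
    simp only [eval_add, eval_mul, eval_C, eval_X]
    push_cast
    ring
  obtain ⟨F, hF⟩ : ∃ F : ℕ → ℕ → ℝ[X], F = fun (r₀ t : ℕ) => P r₀ + G' + (C ((t : ℝ) / g) * X + C (-((t : ℝ) * r₀) / g)) := ⟨_, rfl⟩
  have hF1 : ∀ r₀ t, (F r₀ t).natDegree ≤ K := by
    intro r₀ t
    rw [hF]
    refine natDegree_add_le_of_degree_le (natDegree_add_le_of_degree_le (hP1 r₀) (by omega)) ?_
    exact natDegree_linear_le.trans (by omega)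
  have hF2 : ∀ r₀ t, (F r₀ t).coeff K = (P r₀).coeff K := by
    intro r₀ t
    rw [hF]
    simp only [coeff_add]
    rw [coeff_eq_zero_of_natDegree_lt (lt_of_le_of_lt hG'1 hd), add_zero]
    have h1 : (C ((t : ℝ) / g) * X + C (-((t : ℝ) * r₀) / g)).coeff K = 0 :=
      coeff_eq_zero_of_natDegree_lt (lt_of_le_of_lt natDegree_linear_le hK1)
    rw [coeff_add] at h1
    rw [h1, add_zero]
  have hF3 : ∀ r₀ t (x : ℕ), (F r₀ t).eval (x : ℝ) = (P r₀).eval (x : ℝ) + G'.eval (x : ℝ) + (t : ℝ) * (((x : ℝ) - r₀) / g) := by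
    intro r₀ t x
    rw [hF]
    simp only [eval_add, eval_mul, eval_C, eval_X]
    congr 1
    field_simp
    ring
  have hterm : ∀ x : ℕ, ee ((A : ℝ) * (p : ℝ) ^ (n₀ + q ^ h * x) / (q : ℝ) ^ ι + G.eval ((n₀ + q ^ h * x : ℕ) : ℝ)) =
      ∑ r₀ ∈ range g, (1 / (g : ℂ)) * ∑ t ∈ range g, ee ((F r₀ t).eval (x : ℝ)) := by
    intro x
    have hxg : x % g ∈ range g := mem_range.2 (Nat.mod_lt _ (by omega))
    have h1 : ∀ r₀ ∈ range g, (1 / (g : ℂ)) * ∑ t ∈ range g, ee ((F r₀ t).eval (x : ℝ)) =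
        if r₀ = x % g then ee ((P (x % g)).eval (x : ℝ) + G'.eval (x : ℝ)) else 0 := by
      intro r₀ hr₀
      rw [mem_range] at hr₀
      simp only [hF3]
      have h2 : ∀ t ∈ range g, ee ((P r₀).eval (x : ℝ) + G'.eval (x : ℝ) + (t : ℝ) * (((x : ℝ) - r₀) / g)) =
          ee ((P r₀).eval (x : ℝ) + G'.eval (x : ℝ)) * ee ((t : ℝ) * (((x : ℝ) - r₀) / g)) := fun t _ => ee_add _ _
      rw [sum_congr rfl h2, ← mul_sum, class_ind g hg r₀ x hr₀]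
      by_cases h3 : r₀ = x % g
      · rw [if_pos h3.symm, if_pos h3, h3]
        field_simp
      · rw [if_neg (fun h => h3 h.symm), if_neg h3, mul_zero, mul_zero]
    rw [sum_congr rfl h1, sum_ite_eq' (range g) (x % g), if_pos hxg, hG'2, ee_add, ee_add, hP3 (x % g) x rfl]
    congr 2
    have h2 : (p : ℝ) ^ (n₀ + q ^ h * x) = (p : ℝ) ^ (n₀ + q ^ h * (x % g)) * (1 + (q : ℝ) ^ a * w) ^ (x / g) := by
      have h3 : (1 + (q : ℝ) ^ a * w) = (p : ℝ) ^ (g * q ^ h) := by exact_mod_cast hw.symm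
      rw [h3, ← pow_mul, ← pow_add]
      congr 1
      have h4 := Nat.mod_add_div x g
      calc n₀ + q ^ h * x = n₀ + q ^ h * (x % g + g * (x / g)) := by rw [h4]
        _ = n₀ + q ^ h * (x % g) + g * q ^ h * (x / g) := by ring
    rw [h2]
    push_cast
    ring
  rw [sum_congr rfl fun x _ => hterm x, sum_comm]
  have h1 : ∀ r₀ ∈ range g, ‖∑ x ∈ T, (1 / (g : ℂ)) * ∑ t ∈ range g, ee ((F r₀ t).eval (x : ℝ))‖ ≤ B := by
    intro r₀ _
    rw [← mul_sum, sum_comm, norm_mul]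
    have h2 : ‖(1 / (g : ℂ))‖ = 1 / (g : ℝ) := by simp
    rw [h2]
    have h3 : ‖∑ t ∈ range g, ∑ x ∈ T, ee ((F r₀ t).eval (x : ℝ))‖ ≤ g * B := by
      refine (norm_sum_le _ _).trans ((sum_le_card_nsmul _ _ B fun t _ => ?_).trans (le_of_eq ?_))
      · refine hW _ (hF1 r₀ t) ⟨A * (p : ℤ) ^ (n₀ + q ^ h * r₀), hA' r₀, ?_⟩
        rw [hF2, hP2]
      · rw [card_range, nsmul_eq_mul]
    calc 1 / (g : ℝ) * ‖∑ t ∈ range g, ∑ x ∈ T, ee ((F r₀ t).eval (x : ℝ))‖ ≤ 1 / (g : ℝ) * (g * B) :=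
          mul_le_mul_of_nonneg_left h3 (by positivity)
      _ = B := by field_simp
  refine (norm_sum_le _ _).trans ((sum_le_card_nsmul _ _ B h1).trans (le_of_eq ?_))
  rw [card_range, nsmul_eq_mul]

end Pool.Agent.J4.H78.EX
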