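import Pool.Agent.J4.H78.RD.Weyl

set_option autoImplicit false

/-! Integers with restricted digits: low and high digits; residue classes; polynomial functions. -/

namespace Pool.Agent.J4.H78.EX
open Finset Polynomial
open Pool.Agent.H807R2.Dav
open Pool.Agent.J4.H93.PD (PF)
open Pool.Agent.J4.H78.RD (SD SD_card_pos)

/-- low and high digits -/
lemma SD_split (b : ℕ) (hb : 2 ≤ b) (D : ℕ → Finset ℕ) (h m : ℕ) {E : Type*} [AddCommMonoid E] (f : ℕ → E) :
    ∑ n ∈ SD b D (h + m), f n = ∑ u ∈ SD b D h, ∑ x ∈ SD b (fun i => D (h + i)) m, f (u + b ^ h * x) := by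
  have hbh : 0 < b ^ h := Nat.pow_pos (by omega)
  rw [← sum_product']
  symm
  refine sum_nbij' (fun z => z.1 + b ^ h * z.2) (fun n => (n % b ^ h, n / b ^ h)) ?_ ?_ ?_ ?_ ?_
  · rintro ⟨u, x⟩ hz
    rw [mem_product] at hz
    unfold SD at hz ⊢
    simp only [mem_filter, mem_range] at hz ⊢
    obtain ⟨⟨hu, hu'⟩, hx, hx'⟩ := hz
    constructor
    · calc u + b ^ h * x < b ^ h + b ^ h * x := by omega
        _ = b ^ h * (x + 1) := by ring
        _ ≤ b ^ h * b ^ m := Nat.mul_le_mul_left _ hx
        _ = b ^ (h + m) := (pow_add _ _ _).symm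
    · intro i hi
      rcases lt_or_ge i h with h1 | h1
      · obtain ⟨j, hj⟩ : ∃ j, h = i + 1 + j := ⟨h - (i + 1), by omega⟩
        have e1 : u + b ^ h * x = u + b ^ i * (b * (b ^ j * x)) := by
          rw [hj, pow_add, pow_succ]
          ring
        rw [e1, Nat.add_mul_div_left _ _ (Nat.pow_pos (by omega)), Nat.add_mul_mod_self_left]
        exact hu' i h1
      · obtain ⟨j, rfl⟩ : ∃ j, i = h + j := ⟨i - h, by omega⟩
        have e1 : (u + b ^ h * x) / b ^ (h + j) = x / b ^ j := by
          rw [pow_add, ← Nat.div_div_eq_div_mul, Nat.add_mul_div_left _ _ hbh, Nat.div_eq_of_lt hu, Nat.zero_add]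
        rw [e1]
        exact hx' j (by omega)
  · intro n hn
    rw [mem_product]
    unfold SD at hn ⊢
    simp only [mem_filter, mem_range] at hn ⊢
    obtain ⟨h1, h2⟩ := hn
    refine ⟨⟨Nat.mod_lt _ hbh, fun i hi => ?_⟩, ?_, fun i hi => ?_⟩
    · have h3 := h2 i (by omega)
      obtain ⟨j, hj⟩ : ∃ j, h = i + 1 + j := ⟨h - (i + 1), by omega⟩
      have e1 : n % b ^ h / b ^ i % b = n / b ^ i % b := by
        have e3 := Nat.mod_add_div n (b ^ h)
        obtain ⟨R, hR⟩ : ∃ R, R = n % b ^ h := ⟨_, rfl⟩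
        obtain ⟨Q, hQ⟩ : ∃ Q, Q = n / b ^ h := ⟨_, rfl⟩
        rw [← hR, ← hQ] at e3
        rw [← hR, ← e3]
        have e2 : b ^ h * Q = b ^ i * (b * (b ^ j * Q)) := by
          rw [hj, pow_add, pow_succ]
          ring
        rw [e2, Nat.add_mul_div_left _ _ (Nat.pow_pos (by omega)), Nat.add_mul_mod_self_left]
      rw [e1]
      exact h3
    · rw [Nat.div_lt_iff_lt_mul hbh, ← pow_add, add_comm m h]
      exact h1
    · have h3 := h2 (h + i) (by omega)
      rwa [pow_add, ← Nat.div_div_eq_div_mul] at h3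
  · rintro ⟨u, x⟩ hz
    rw [mem_product] at hz
    unfold SD at hz
    simp only [mem_filter, mem_range] at hz
    simp only [Prod.mk.injEq]
    constructor
    · rw [Nat.add_mul_mod_self_left, Nat.mod_eq_of_lt hz.1.1]
    · rw [Nat.add_mul_div_left _ _ hbh, Nat.div_eq_of_lt hz.1.1, Nat.zero_add]
  · intro n _
    simp only
    exact Nat.mod_add_div n (b ^ h)
  · intro z _
    rfl

/-- the indicator function of a residue class -/
lemma class_ind (g : ℕ) (hg : 1 ≤ g) (r x : ℕ) (hr : r < g) :
    (∑ t ∈ range g, ee ((t : ℝ) * (((x : ℝ) - r) / g))) = if x % g = r then (g : ℂ) else 0 := by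
  have hg0 : (g : ℝ) ≠ 0 := by positivity
  have h1 : ∀ t ∈ range g, ee ((t : ℝ) * (((x : ℝ) - r) / g)) = ee (((x : ℝ) - r) / g) ^ t := by
    intro t _
    rw [ee_pow]
  rw [sum_congr rfl h1]
  split_ifs with h
  · have h2 : ((x : ℝ) - r) / g = ((x / g : ℕ) : ℤ) := by
      have h3 := Nat.mod_add_div x g
      rw [h] at h3
      have h4 : (x : ℝ) = r + g * (x / g : ℕ) := by exact_mod_cast h3.symm
      rw [Int.cast_natCast, div_eq_iff hg0]
      linarith
    rw [h2, ee_int]
    simp
  · have h2 : ee (((x : ℝ) - r) / g) ≠ 1 := by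
      intro h3
      apply h
      rw [ee_eq, Complex.exp_eq_one_iff] at h3
      obtain ⟨n, hn⟩ := h3
      have h4 : (((x : ℝ) - r) / g : ℝ) = n := by
        have hI : (Complex.I) ≠ 0 := Complex.I_ne_zero
        have hpi : (Real.pi : ℂ) ≠ 0 := by exact_mod_cast Real.pi_ne_zero
        have h5 : ((((x : ℝ) - r) / g : ℝ) : ℂ) * (2 * Real.pi * Complex.I) = n * (2 * Real.pi * Complex.I) := by
          rw [← hn]
          push_cast
          ring
        have h6 := mul_right_cancel₀ (by simp [hI, hpi]) h5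
        exact_mod_cast h6
      rw [div_eq_iff hg0] at h4
      have h5 : (x : ℤ) - r = n * g := by exact_mod_cast h4
      have h6 : (x : ℤ) % g = r := by
        have : (x : ℤ) = r + g * n := by linarith
        rw [this, Int.add_mul_emod_self_left]
        exact Int.emod_eq_of_lt (by positivity) (by exact_mod_cast hr)
      exact_mod_cast h6
    rw [geom_sum_eq h2]
    have h3 : ee (((x : ℝ) - r) / g) ^ g = 1 := by
      rw [← ee_pow]
      have : (g : ℝ) * (((x : ℝ) - r) / g) = (((x : ℤ) - r : ℤ) : ℝ) := by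
        push_cast
        field_simp
      rw [this, ee_int]
    rw [h3, sub_self, zero_div]

/-- polynomials as polynomial functions -/
lemma PF_of {d : ℕ} (P : ℝ[X]) (hP : P.natDegree ≤ d) : PF d (P.coeff d) (fun y => P.eval y) :=
  ⟨P.coeff, rfl, fun y => Polynomial.eval_eq_sum_range' (by omega) y⟩

lemma lin_natDegree {a : ℝ} (ha : a ≠ 0) (b : ℝ) : (C a * X + C b : ℝ[X]).natDegree = 1 :=
  natDegree_linear ha

/-- binomial coefficients of linear functions -/
lemma binom_comp (j : ℕ) {a : ℝ} (ha : a ≠ 0) (b : ℝ) :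
    ((descPochhammer ℝ j).comp (C a * X + C b)).natDegree ≤ j ∧
    ((descPochhammer ℝ j).comp (C a * X + C b)).coeff j = a ^ j := by
  have h1 : (descPochhammer ℝ j).natDegree = j := descPochhammer_natDegree ℝ j
  have h2 := lin_natDegree ha b
  constructor
  · refine natDegree_comp_le.trans ?_
    rw [h1, h2, mul_one]
  · have h3 := coeff_comp_degree_mul_degree (p := descPochhammer ℝ j) (q := C a * X + C b) (by rw [h2]; exact one_ne_zero)
    rw [h1, h2, mul_one] at h3
    rw [h3, (monic_descPochhammer ℝ j).leadingCoeff, one_mul]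
    congr 1
    rw [leadingCoeff_linear ha]

end Pool.Agent.J4.H78.EX
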