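import Pool.Agent.J4.H78.EX.Inner

set_option autoImplicit false

/-! Exponential sums over powers modulo prime powers, the exponents being integers with restricted digits. -/

namespace Pool.Agent.J4.H78.EX
open Finset Polynomial
open Pool.Agent.H807R2.Dav
open Pool.Agent.J4.H93.PD (PF)
open Pool.Agent.J4.H78.RD (SD SD_card_pos weyl_pow)

lemma weyl_unif (b : ℕ) (hb : 2 ≤ b) (τ : ℝ) (hτ : 0 < τ) (Km : ℕ) :
    ∃ η : ℝ, 0 < η ∧ ∃ K₀ : ℕ, ∀ m : ℕ, 2 ≤ m → m ≤ Km → ∀ k : ℕ, K₀ ≤ k → ∀ D : ℕ → Finset ℕ,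
    (∀ i < k, D i ⊆ range b ∧ 2 ≤ (D i).card) → ∀ (θ : ℝ) (F : ℝ → ℝ), PF m θ F →
    (∀ Q : ℕ, 1 ≤ Q → (Q : ℝ) ≤ ((b : ℝ) ^ k) ^ τ → ∀ a : ℤ, ((b : ℝ) ^ k)⁻¹ < |θ - a / Q|) →
    ‖∑ n ∈ SD b D k, ee (F n)‖ ≤ (SD b D k).card * ((b : ℝ) ^ k) ^ (-η) := by
  have hb1 : (1 : ℝ) ≤ b := by exact_mod_cast (by omega : 1 ≤ b)
  induction Km with
  | zero => exact ⟨1, one_pos, 0, fun m h1 h2 => by omega⟩
  | succ Km ih =>
    obtain ⟨η, hη, K₀, h⟩ := ih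
    rcases lt_or_ge (Km + 1) 2 with h2 | h2
    · exact ⟨1, one_pos, 0, fun m h1 h3 => by omega⟩
    · obtain ⟨η', hη', K₀', h'⟩ := weyl_pow b hb (Km + 1) h2 τ hτ
      refine ⟨min η η', lt_min hη hη', max K₀ K₀', fun m h1 h3 k hk D hD θ F hF hθ => ?_⟩
      have hZ : (1 : ℝ) ≤ (b : ℝ) ^ k := one_le_pow₀ hb1
      rcases Nat.lt_or_ge m (Km + 1) with h4 | h4
      · refine (h m h1 (by omega) k (le_of_max_le_left hk) D hD θ F hF hθ).trans ?_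
        apply mul_le_mul_of_nonneg_left _ (Nat.cast_nonneg _)
        apply Real.rpow_le_rpow_of_exponent_le hZ
        linarith [min_le_left η η']
      · obtain rfl : m = Km + 1 := by omega
        refine (h' k (le_of_max_le_right hk) D hD θ F hF hθ).trans ?_
        apply mul_le_mul_of_nonneg_left _ (Nat.cast_nonneg _)
        apply Real.rpow_le_rpow_of_exponent_le hZ
        linarith [min_le_right η η']

/-- **Exponential sums over powers at exponents with restricted digits.** -/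
theorem expsum_S {q : ℕ} (hq : q.Prime) {p g s : ℕ} (hp : ¬ q ∣ p) (hg : 1 ≤ g)
    (hw : ∀ i, ∃ w, ¬ q ∣ w ∧ p ^ (g * q ^ i) = 1 + q ^ (s + i) * w) (d₀ : ℕ) (δ C : ℝ) (hδ : 0 < δ)
    (hδ1 : δ ≤ 1) (hC : 0 ≤ C) :
    ∃ η : ℝ, 0 < η ∧ ∃ k₀ : ℕ, ∀ k : ℕ, k₀ ≤ k → ∀ D : ℕ → Finset ℕ,
      (∀ i < k, D i ⊆ range q ∧ 2 ≤ (D i).card) → ∀ ι : ℕ, δ * k ≤ ι → (ι : ℝ) ≤ C * k →
      ∀ A : ℤ, ¬ (q : ℤ) ∣ A → ∀ G : ℝ[X], G.natDegree ≤ d₀ →
      ‖∑ n ∈ SD q D k, ee ((A : ℝ) * (p : ℝ) ^ n / (q : ℝ) ^ ι + G.eval (n : ℝ))‖ ≤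
        (SD q D k).card * ((q : ℝ) ^ k) ^ (-η) := by
  have hq2 := hq.two_le
  have hqR : (2 : ℝ) ≤ q := by exact_mod_cast hq2
  have hq0 : (0 : ℝ) < q := by linarith
  have hq1 : (1 : ℝ) < q := by linarith
  have hlq : 0 < Real.log q := Real.log_pos hq1
  have hqI : Prime (q : ℤ) := Nat.prime_iff_prime_int.1 hq
  -- parameters
  obtain ⟨δ₁, hδ₁⟩ : ∃ δ₁ : ℝ, δ₁ = δ / (8 * (d₀ + 2)) := ⟨_, rfl⟩
  have hd2 : (2 : ℝ) ≤ (d₀ : ℝ) + 2 := by linarith [(Nat.cast_nonneg d₀ : (0 : ℝ) ≤ d₀)]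
  have hδ₁0 : 0 < δ₁ := by rw [hδ₁]; positivity
  have hδ₁1 : δ₁ * (8 * (d₀ + 2)) = δ := by rw [hδ₁]; field_simp
  have hδ₁2 : δ₁ ≤ 1 / 16 := by nlinarith
  obtain ⟨Km, hKm⟩ : ∃ Km : ℕ, Km = ⌈2 * C / δ₁⌉₊ := ⟨_, rfl⟩
  obtain ⟨τ, hτ⟩ : ∃ τ : ℝ, τ = δ₁ / 16 := ⟨_, rfl⟩
  have hτ0 : 0 < τ := by rw [hτ]; positivity
  obtain ⟨η₁, hη₁, K₀, hweyl⟩ := weyl_unif q hq2 τ hτ0 Km
  obtain ⟨W₀, hW₀⟩ : ∃ W₀ : ℕ, W₀ = Km.factorial * g ^ Km := ⟨_, rfl⟩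
  -- large k
  have hlim : Filter.Tendsto (fun k : ℕ => ((q : ℝ) ^ k)) Filter.atTop Filter.atTop := tendsto_pow_atTop_atTop_of_one_lt hq1
  obtain ⟨k₁, hk₁⟩ := Filter.eventually_atTop.1
    ((((tendsto_rpow_atTop (by norm_num : (0 : ℝ) < 1 / 4)).comp hlim).eventually_ge_atTop ((W₀ : ℝ) + 1)).and
    (((tendsto_rpow_atTop (by positivity : (0 : ℝ) < η₁ / 4)).comp hlim).eventually_ge_atTop (g : ℝ)))
  obtain ⟨k₂, hk₂⟩ := exists_nat_ge ((8 * (Km + s + 2) : ℝ) / δ₁)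
  refine ⟨η₁ / 4, by positivity, 2 * K₀ + k₁ + k₂ + 1, fun k hk D hD ι hι1 hι2 A hA G hG => ?_⟩
  obtain ⟨hbig1, hbig2⟩ := hk₁ k (by omega)
  simp only [Function.comp] at hbig1 hbig2
  have hkR : (1 : ℝ) ≤ k := by exact_mod_cast (by omega : 1 ≤ k)
  have hk0 : (0 : ℝ) < k := by linarith
  have hδk : 8 * ((Km : ℝ) + s + 2) ≤ δ₁ * k := by
    have h1 : (8 * (Km + s + 2) : ℝ) / δ₁ ≤ k := hk₂.trans (by exact_mod_cast (by omega : k₂ ≤ k))
    rw [div_le_iff₀ hδ₁0] at h1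
    linarith
  have hKmR : (0 : ℝ) ≤ Km := Nat.cast_nonneg _
  have hsR : (0 : ℝ) ≤ s := Nat.cast_nonneg _
  obtain ⟨a0, ha0⟩ : ∃ a0 : ℕ, a0 = ⌊δ₁ * k⌋₊ := ⟨_, rfl⟩
  have ha0a : (a0 : ℝ) ≤ δ₁ * k := by rw [ha0]; exact Nat.floor_le (by positivity)
  have ha0b : δ₁ * k < a0 + 1 := by rw [ha0]; exact Nat.lt_floor_add_one _
  have ha0d : δ₁ * k / 2 ≤ a0 := by linarith
  have ha0c : 1 ≤ a0 := by
    have : (1 : ℝ) ≤ a0 := by linarith
    exact_mod_cast this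
  obtain ⟨K, hK⟩ : ∃ K : ℕ, K = ι / a0 := ⟨_, rfl⟩
  have hKa : K * a0 ≤ ι := by rw [hK]; exact Nat.div_mul_le_self _ _
  have hKb : ι < (K + 1) * a0 := by
    have h1 := Nat.div_add_mod ι a0
    have h2 := Nat.mod_lt ι ha0c
    rw [← hK] at h1
    nlinarith
  have hKd : d₀ + 2 ≤ K := by
    have h1 : (ι : ℝ) < (K + 1) * a0 := by exact_mod_cast hKb
    have h2 : δ₁ * (8 * (d₀ + 2)) * k < (K + 1) * (δ₁ * k) := by
      rw [hδ₁1]
      calc δ * k ≤ ι := hι1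
        _ < (K + 1) * a0 := h1
        _ ≤ (K + 1) * (δ₁ * k) := mul_le_mul_of_nonneg_left ha0a (by positivity)
    have h3 : (8 * ((d₀ : ℝ) + 2)) * (δ₁ * k) < (K + 1) * (δ₁ * k) := by linarith
    have h4 := lt_of_mul_lt_mul_right h3 (by positivity)
    have h5 : ((d₀ + 2 : ℕ) : ℝ) ≤ K := by push_cast; linarith
    exact_mod_cast h5
  have hKm1 : K ≤ Km := by
    have h1 : (K : ℝ) * a0 ≤ ι := by exact_mod_cast hKa
    have h3 : (K : ℝ) * (δ₁ * k / 2) ≤ C * k := by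
      have : (K : ℝ) * (δ₁ * k / 2) ≤ K * a0 := mul_le_mul_of_nonneg_left ha0d (Nat.cast_nonneg _)
      linarith
    have h4 : (K : ℝ) ≤ 2 * C / δ₁ := by
      rw [le_div_iff₀ hδ₁0]
      have h5 : (K * δ₁) * k ≤ (2 * C) * k := by nlinarith
      exact le_of_mul_le_mul_right h5 hk0
    rw [hKm]
    exact_mod_cast h4.trans (Nat.le_ceil _)
  obtain ⟨a, ha⟩ : ∃ a : ℕ, a = (ι + K) / (K + 1) := ⟨_, rfl⟩
  have ha1 : (K + 1) * a ≤ ι + K := by rw [ha]; exact Nat.mul_div_le _ _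
  have ha2 : ι ≤ (K + 1) * a := by
    have h1 := Nat.div_add_mod (ι + K) (K + 1)
    have h2 := Nat.mod_lt (ι + K) (show 0 < K + 1 by omega)
    rw [← ha] at h1
    omega
  have ha3 : a0 ≤ 2 * a := by
    by_contra hc
    push Not at hc
    have h1 : K * (2 * a + 1) ≤ K * a0 := Nat.mul_le_mul_left _ hc
    nlinarith
  have ha4 : a ≤ a0 := by
    by_contra hc
    push Not at hc
    have h1 : (K + 1) * (a0 + 1) ≤ (K + 1) * a := Nat.mul_le_mul_left _ hc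
    nlinarith
  have ha3' : (a0 : ℝ) ≤ 2 * a := by exact_mod_cast ha3
  have ha5 : δ₁ * k / 4 ≤ a := by linarith
  have haK : K ≤ a := by
    have h1 : (Km : ℝ) ≤ a := by linarith
    have h2 : Km ≤ a := by exact_mod_cast h1
    omega
  have has : s ≤ a := by
    have h1 : (s : ℝ) ≤ a := by linarith
    exact_mod_cast h1
  have hKaι : K * a ≤ ι := by
    have : (K + 1) * a = K * a + a := by ring
    omega
  obtain ⟨r, hr⟩ : ∃ r : ℕ, ι = r + K * a := ⟨ι - K * a, by omega⟩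
  have hr2 : r ≤ a := by
    have : (K + 1) * a = K * a + a := by ring
    omega
  have hr3 : a ≤ r + K := by
    have : (K + 1) * a = K * a + a := by ring
    omega
  have hr4 : δ₁ * k / 8 ≤ r := by
    have h1 : (a : ℝ) ≤ r + K := by exact_mod_cast hr3
    have h2 : (K : ℝ) ≤ Km := by exact_mod_cast hKm1
    linarith
  have hr5 : (r : ℝ) ≤ δ₁ * k := by
    have : (r : ℝ) ≤ a0 := by exact_mod_cast hr2.trans ha4
    linarith
  obtain ⟨w, hwq, hwe⟩ := hw (a - s)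
  rw [Nat.add_sub_cancel' has] at hwe
  obtain ⟨h, hh⟩ : ∃ h, h = a - s := ⟨_, rfl⟩
  rw [← hh] at hwe
  have hhk : (h : ℝ) ≤ k / 2 := by
    have h1 : (h : ℝ) ≤ a0 := by exact_mod_cast (by omega : h ≤ a0)
    nlinarith
  have hhk' : h ≤ k := by
    have : (h : ℝ) ≤ k := by linarith
    exact_mod_cast this
  obtain ⟨m, rfl⟩ : ∃ m, k = h + m := ⟨k - h, by omega⟩
  have hmk : ((h + m : ℕ) : ℝ) / 2 ≤ m := by
    push_cast at hhk ⊢
    linarith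
  have hmK : K₀ ≤ m := by
    have h1 : ((2 * K₀ : ℕ) : ℝ) ≤ ((h + m : ℕ) : ℝ) := by exact_mod_cast (by omega : 2 * K₀ ≤ h + m)
    have h2 : (K₀ : ℝ) ≤ m := by
      push_cast at h1 hmk ⊢
      linarith
    exact_mod_cast h2
  -- notation
  have hqpow : ∀ (j : ℕ) (x : ℝ), ((q : ℝ) ^ j) ^ x = Real.exp (x * j * Real.log q) := by
    intro j x
    rw [← Real.rpow_natCast, ← Real.rpow_mul hq0.le, Real.rpow_def_of_pos hq0]
    congr 1
    ring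
  have hqpow' : ∀ j : ℕ, (q : ℝ) ^ j = Real.exp (j * Real.log q) := by
    intro j
    rw [Real.exp_nat_mul, Real.exp_log hq0]
  obtain ⟨D', hD'⟩ : ∃ D' : ℕ → Finset ℕ, D' = fun i => D (h + i) := ⟨_, rfl⟩
  have hDD : ∀ i < m, D' i ⊆ range q ∧ 2 ≤ (D' i).card := by
    intro i hi
    rw [hD']
    exact hD (h + i) (by omega)
  -- the leading coefficient
  have hW : ∀ F : ℝ[X], F.natDegree ≤ K → (∃ A'' : ℤ, ¬ (q : ℤ) ∣ A'' ∧
      F.coeff K = (A'' : ℝ) * (w : ℝ) ^ K * (q : ℝ) ^ (a * K) / (q : ℝ) ^ ι / (K.factorial : ℝ) * (1 / (g : ℝ)) ^ K) →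
      ‖∑ x ∈ SD q D' m, ee (F.eval (x : ℝ))‖ ≤ (SD q D' m).card * ((q : ℝ) ^ m) ^ (-η₁) := by
    rintro F hF ⟨A'', hA'', hcoef⟩
    refine hweyl K (by omega) hKm1 m hmK D' hDD (F.coeff K) (fun y => F.eval y) (PF_of F hF) ?_
    intro Q hQ hQZ a'
    have hQ0 : (0 : ℝ) < Q := by exact_mod_cast hQ
    have hg0 : (0 : ℝ) < g := by exact_mod_cast hg
    have hKf : (0 : ℝ) < (K.factorial : ℝ) := by exact_mod_cast Nat.factorial_pos K
    have hθ : F.coeff K - a' / Q =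
        (((A'' * (w : ℤ) ^ K * Q - a' * (K.factorial * g ^ K * q ^ r : ℕ) : ℤ)) : ℝ) /
          ((K.factorial : ℝ) * (g : ℝ) ^ K * (q : ℝ) ^ r * Q) := by
      rw [hcoef, one_div_pow]
      have e1 : (q : ℝ) ^ ι = (q : ℝ) ^ r * (q : ℝ) ^ (a * K) := by
        rw [hr, pow_add, mul_comm K a]
      rw [e1]
      push_cast
      field_simp
    have hQr : (Q : ℝ) < (q : ℝ) ^ r := by
      refine lt_of_le_of_lt hQZ ?_
      rw [hqpow, hqpow']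
      apply Real.exp_lt_exp.2
      apply mul_lt_mul_of_pos_right _ hlq
      have h1 : τ * m ≤ τ * ((h + m : ℕ) : ℝ) := mul_le_mul_of_nonneg_left (by push_cast; linarith [(Nat.cast_nonneg h : (0 : ℝ) ≤ h)]) hτ0.le
      rw [hτ] at h1 ⊢
      nlinarith
    have hnum : (A'' * (w : ℤ) ^ K * Q - a' * (K.factorial * g ^ K * q ^ r : ℕ) : ℤ) ≠ 0 := by
      intro hc
      have h1 : (q : ℤ) ^ r ∣ (Q : ℤ) * (A'' * (w : ℤ) ^ K) := by
        refine ⟨a' * (K.factorial * g ^ K : ℕ), ?_⟩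
        push_cast at hc ⊢
        linarith
      have h2 : IsCoprime ((q : ℤ) ^ r) (A'' * (w : ℤ) ^ K) := by
        apply IsCoprime.pow_left
        rw [Prime.coprime_iff_not_dvd hqI]
        intro h3
        rcases hqI.dvd_or_dvd h3 with h4 | h4
        · exact hA'' h4
        · have h5 := hqI.dvd_of_dvd_pow h4
          exact hwq (by exact_mod_cast h5)
      have h3 := h2.dvd_of_dvd_mul_right h1
      have h4 := Int.le_of_dvd (by exact_mod_cast hQ) h3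
      have h5 : (q : ℝ) ^ r ≤ Q := by exact_mod_cast h4
      linarith
    rw [hθ, abs_div, abs_of_pos (by positivity : (0 : ℝ) < (K.factorial : ℝ) * (g : ℝ) ^ K * (q : ℝ) ^ r * Q)]
    have habs : (1 : ℝ) ≤ |(((A'' * (w : ℤ) ^ K * Q - a' * (K.factorial * g ^ K * q ^ r : ℕ) : ℤ)) : ℝ)| := by
      exact_mod_cast Int.one_le_abs hnum
    have hWK : (K.factorial : ℝ) * (g : ℝ) ^ K ≤ W₀ := by
      rw [hW₀]
      push_cast
      apply mul_le_mul _ _ (by positivity) (by positivity)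
      · exact_mod_cast Nat.factorial_le hKm1
      · exact pow_le_pow_right₀ (by exact_mod_cast hg) hKm1
    have hden : (K.factorial : ℝ) * (g : ℝ) ^ K * (q : ℝ) ^ r * Q < (q : ℝ) ^ m := by
      have h1 : (K.factorial : ℝ) * (g : ℝ) ^ K < ((q : ℝ) ^ (h + m)) ^ (1 / 4 : ℝ) := by linarith
      have h2 : (q : ℝ) ^ r * Q ≤ (q : ℝ) ^ r * ((q : ℝ) ^ m) ^ τ := mul_le_mul_of_nonneg_left hQZ (by positivity)
      calc (K.factorial : ℝ) * (g : ℝ) ^ K * (q : ℝ) ^ r * Q = ((K.factorial : ℝ) * (g : ℝ) ^ K) * ((q : ℝ) ^ r * Q) := by ring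
        _ < ((q : ℝ) ^ (h + m)) ^ (1 / 4 : ℝ) * ((q : ℝ) ^ r * Q) := mul_lt_mul_of_pos_right h1 (by positivity)
        _ ≤ ((q : ℝ) ^ (h + m)) ^ (1 / 4 : ℝ) * ((q : ℝ) ^ r * ((q : ℝ) ^ m) ^ τ) :=
            mul_le_mul_of_nonneg_left h2 (by positivity)
        _ ≤ (q : ℝ) ^ m := by
            rw [hqpow, hqpow, hqpow' r, hqpow' m, ← Real.exp_add, ← Real.exp_add]
            apply Real.exp_le_exp.2
            rw [← add_mul, ← add_mul]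
            apply mul_le_mul_of_nonneg_right _ hlq.le
            have h3 : (0 : ℝ) ≤ m := Nat.cast_nonneg m
            have h4 : τ ≤ 1 / 16 := by rw [hτ]; linarith
            have h5 : τ * m ≤ 1 / 16 * m := mul_le_mul_of_nonneg_right h4 h3
            have h6 : δ₁ * ((h + m : ℕ) : ℝ) ≤ 1 / 16 * ((h + m : ℕ) : ℝ) := mul_le_mul_of_nonneg_right hδ₁2 (Nat.cast_nonneg _)
            linarith
    have hm0 : (0 : ℝ) < (q : ℝ) ^ m := by positivity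
    calc ((q : ℝ) ^ m)⁻¹ < ((K.factorial : ℝ) * (g : ℝ) ^ K * (q : ℝ) ^ r * Q)⁻¹ := by
          apply inv_strictAnti₀ (by positivity) hden
      _ = 1 / ((K.factorial : ℝ) * (g : ℝ) ^ K * (q : ℝ) ^ r * Q) := (one_div _).symm
      _ ≤ _ := by
          apply div_le_div_of_nonneg_right habs (by positivity)
  -- the sum
  rw [SD_split q hq2 D h m]
  have hsplit : ((SD q D (h + m)).card : ℝ) = (SD q D h).card * (SD q D' m).card := by
    have h1 := SD_split q hq2 D h m (fun _ => (1 : ℕ))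
    simp only [sum_const, smul_eq_mul, mul_one] at h1
    rw [hD']
    exact_mod_cast h1
  have hin : ∀ u ∈ SD q D h, ‖∑ x ∈ SD q (fun i => D (h + i)) m,
      ee ((A : ℝ) * (p : ℝ) ^ (u + q ^ h * x) / (q : ℝ) ^ ι + G.eval ((u + q ^ h * x : ℕ) : ℝ))‖ ≤
      g * ((SD q D' m).card * ((q : ℝ) ^ m) ^ (-η₁)) := by
    intro u _
    have h1 := inner_sum hq2 hp hq hg a w ι K h d₀ (by rw [mul_comm]; exact ha2) (by omega) (by omega) hwe
      (SD q D' m) _ hW A hA G hG u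
    rw [← hD']
    exact h1
  refine (norm_sum_le _ _).trans ((sum_le_card_nsmul _ _ _ hin).trans ?_)
  rw [nsmul_eq_mul, hsplit]
  have hlast : (g : ℝ) * ((q : ℝ) ^ m) ^ (-η₁) ≤ ((q : ℝ) ^ (h + m)) ^ (-(η₁ / 4)) := by
    have h1 : ((q : ℝ) ^ m) ^ (-η₁) ≤ ((q : ℝ) ^ (h + m)) ^ (-(η₁ / 2)) := by
      rw [hqpow, hqpow]
      apply Real.exp_le_exp.2
      apply mul_le_mul_of_nonneg_right _ hlq.le
      nlinarith
    calc (g : ℝ) * ((q : ℝ) ^ m) ^ (-η₁) ≤ ((q : ℝ) ^ (h + m)) ^ (η₁ / 4) * ((q : ℝ) ^ (h + m)) ^ (-(η₁ / 2)) :=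
          mul_le_mul hbig2 h1 (by positivity) (by positivity)
      _ = ((q : ℝ) ^ (h + m)) ^ (-(η₁ / 4)) := by
          rw [← Real.rpow_add (by positivity)]
          congr 1
          ring
  calc ((SD q D h).card : ℝ) * (g * ((SD q D' m).card * ((q : ℝ) ^ m) ^ (-η₁))) =
        (SD q D h).card * (SD q D' m).card * (g * ((q : ℝ) ^ m) ^ (-η₁)) := by ring
    _ ≤ (SD q D h).card * (SD q D' m).card * ((q : ℝ) ^ (h + m)) ^ (-(η₁ / 4)) :=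
        mul_le_mul_of_nonneg_left hlast (mul_nonneg (Nat.cast_nonneg _) (Nat.cast_nonneg _))

end Pool.Agent.J4.H78.EX
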